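import Pool.Agent.helper73.AD.Basic

/-!
Project ad, module CV: convexity of the logarithms of the entries of the arc matrices.
-/

namespace Pool.Agent.helper73.AD

open scoped BigOperators Topology
open Filter

section

variable {J : Type} [Fintype J]

/-- `B` is the Hessian of `f` at `z` -/
def CV_HH (f : PS J → ℝ) (z : PS J) (B : PS J →L[ℝ] PS J →L[ℝ] ℝ) : Prop :=
  ∃ f' : PS J → (PS J →L[ℝ] ℝ), (∀ᶠ u in 𝓝 z, HasFDerivAt f (f' u) u) ∧ HasFDerivAt f' B z

theorem CV_HH.hs {f : PS J → ℝ} {z : PS J} {B : PS J →L[ℝ] PS J →L[ℝ] ℝ} (h : CV_HH f z B)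
    (x y : PS J) : hs f z x y = B x y := by
  obtain ⟨f', h1, h2⟩ := h
  have h3 : (fun u => fderiv ℝ f u) =ᶠ[𝓝 z] f' := by
    filter_upwards [h1] with u hu using hu.fderiv
  unfold Pool.Agent.helper73.AD.hs
  rw [h3.fderiv_eq, h2.fderiv]

theorem CV_HH.add {f g : PS J → ℝ} {z : PS J} {B C : PS J →L[ℝ] PS J →L[ℝ] ℝ}
    (hf : CV_HH f z B) (hg : CV_HH g z C) : CV_HH (fun u => f u + g u) z (B + C) := by
  obtain ⟨f', h1, h2⟩ := hf
  obtain ⟨g', h3, h4⟩ := hg
  refine ⟨fun u => f' u + g' u, ?_, ?_⟩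
  · filter_upwards [h1, h3] with u hu hu'
    exact hu.add hu'
  · exact h2.add h4

theorem CV_HH.sub {f g : PS J → ℝ} {z : PS J} {B C : PS J →L[ℝ] PS J →L[ℝ] ℝ}
    (hf : CV_HH f z B) (hg : CV_HH g z C) : CV_HH (fun u => f u - g u) z (B - C) := by
  obtain ⟨f', h1, h2⟩ := hf
  obtain ⟨g', h3, h4⟩ := hg
  refine ⟨fun u => f' u - g' u, ?_, ?_⟩
  · filter_upwards [h1, h3] with u hu hu'
    exact hu.sub hu'
  · exact h2.sub h4

theorem CV_HH.div2 {f : PS J → ℝ} {z : PS J} {B : PS J →L[ℝ] PS J →L[ℝ] ℝ}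
    (hf : CV_HH f z B) : CV_HH (fun u => f u / 2) z ((1 / 2 : ℝ) • B) := by
  obtain ⟨f', h1, h2⟩ := hf
  refine ⟨fun u => (1 / 2 : ℝ) • f' u, ?_, ?_⟩
  · filter_upwards [h1] with u hu
    have := hu.const_smul (1 / 2 : ℝ)
    refine this.congr_of_eventuallyEq (Eventually.of_forall fun v => ?_)
    simp only [Pi.smul_apply, smul_eq_mul]; ring
  · exact h2.const_smul (1 / 2 : ℝ)

theorem CV_HH_const (c : ℝ) (z : PS J) : CV_HH (fun _ => c) z 0 :=
  ⟨fun _ => 0, Eventually.of_forall fun u => hasFDerivAt_const c u, hasFDerivAt_const _ z⟩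

theorem CV_HH_comp (φ φ1 : ℝ → ℝ) (φ2 : ℝ) (g : PS J → ℝ) (ℓ : PS J →L[ℝ] ℝ)
    (hg : ∀ u, g u = ℓ u) (z : PS J) (h1 : ∀ᶠ s in 𝓝 (g z), HasDerivAt φ (φ1 s) s)
    (h2 : HasDerivAt φ1 φ2 (g z)) : CV_HH (fun u => φ (g u)) z (φ2 • ℓ.smulRight ℓ) := by
  have hg' : g = fun u => ℓ u := funext hg
  subst hg'
  refine ⟨fun u => φ1 (ℓ u) • ℓ, ?_, ?_⟩
  · have hc : Tendsto (fun u => ℓ u) (𝓝 z) (𝓝 (ℓ z)) := ℓ.continuous.continuousAt
    filter_upwards [hc.eventually h1] with u hu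
    exact hu.comp_hasFDerivAt u ℓ.hasFDerivAt
  · have h3 : HasFDerivAt (fun u => φ1 (ℓ u)) (φ2 • ℓ) z :=
      h2.comp_hasFDerivAt z ℓ.hasFDerivAt
    refine (h3.smul_const ℓ).congr_fderiv ?_
    ext x y
    all_goals
      simp only [ContinuousLinearMap.comp_apply, ContinuousLinearMap.smul_apply,
        ContinuousLinearMap.smulRight_apply, smul_eq_mul]
      ring

theorem CV_lc1 (s : ℝ) : HasDerivAt lc (Real.sinh s / Real.cosh s) s := by
  unfold lc
  exact (Real.hasDerivAt_cosh s).log (Real.cosh_pos s).ne'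

theorem CV_lc2 (s : ℝ) :
    HasDerivAt (fun s => Real.sinh s / Real.cosh s) (1 / Real.cosh s ^ 2) s := by
  have h := (Real.hasDerivAt_sinh s).div (Real.hasDerivAt_cosh s) (Real.cosh_pos s).ne'
  refine h.congr_deriv ?_
  have := Real.cosh_sq s
  congr 1
  nlinarith

theorem CV_ls1 {s : ℝ} (hs : 0 < s) : HasDerivAt ls (Real.cosh s / Real.sinh s) s := by
  unfold ls
  exact (Real.hasDerivAt_sinh s).log (Real.sinh_pos_iff.mpr hs).ne'

theorem CV_ls2 {s : ℝ} (hs : 0 < s) :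
    HasDerivAt (fun s => Real.cosh s / Real.sinh s) (-(1 / Real.sinh s ^ 2)) s := by
  have h := (Real.hasDerivAt_cosh s).div (Real.hasDerivAt_sinh s) (Real.sinh_pos_iff.mpr hs).ne'
  refine h.congr_deriv ?_
  have := Real.cosh_sq s
  rw [← neg_div]
  congr 1
  nlinarith

theorem CV_lc (g : PS J → ℝ) (ℓ : PS J →L[ℝ] ℝ) (hg : ∀ u, g u = ℓ u) (z : PS J) :
    CV_HH (fun u => lc (g u)) z ((1 / Real.cosh (g z) ^ 2) • ℓ.smulRight ℓ) :=
  CV_HH_comp lc _ _ g ℓ hg z (Eventually.of_forall fun s => CV_lc1 s) (CV_lc2 (g z))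

theorem CV_ls (g : PS J → ℝ) (ℓ : PS J →L[ℝ] ℝ) (hg : ∀ u, g u = ℓ u) (z : PS J)
    (hz : 0 < g z) :
    CV_HH (fun u => ls (g u)) z ((-(1 / Real.sinh (g z) ^ 2)) • ℓ.smulRight ℓ) := by
  refine CV_HH_comp ls (fun s => Real.cosh s / Real.sinh s) _ g ℓ hg z ?_ (CV_ls2 hz)
  filter_upwards [isOpen_Ioi.mem_nhds hz] with s hs using CV_ls1 hs

/-- log-sum-exp of linear functionals -/
theorem CV_lse {ι : Type} [Fintype ι] [Nonempty ι] (ℓ : ι → PS J →L[ℝ] ℝ) (z : PS J) :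
    ∃ B : PS J →L[ℝ] PS J →L[ℝ] ℝ,
      CV_HH (fun u => Real.log (∑ i, Real.exp (ℓ i u))) z B ∧ ∀ x, 0 ≤ B x x := by
  have hS : ∀ u : PS J, 0 < ∑ i, Real.exp (ℓ i u) := fun u =>
    Finset.sum_pos (fun i _ => Real.exp_pos _) Finset.univ_nonempty
  have hE : ∀ (i : ι) (u : PS J), HasFDerivAt (fun u => Real.exp (ℓ i u))
      (Real.exp (ℓ i u) • ℓ i) u := fun i u => (ℓ i).hasFDerivAt.exp
  have hSd : ∀ u : PS J, HasFDerivAt (fun u => ∑ i, Real.exp (ℓ i u))
      (∑ i, Real.exp (ℓ i u) • ℓ i) u := fun u => HasFDerivAt.fun_sum fun i _ => hE i u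
  have hV : HasFDerivAt (fun u => ∑ i, Real.exp (ℓ i u) • ℓ i)
      (∑ i, (Real.exp (ℓ i z) • ℓ i).smulRight (ℓ i)) z :=
    HasFDerivAt.fun_sum fun i _ => (hE i z).smul_const (ℓ i)
  have hI : HasFDerivAt (fun u => (∑ i, Real.exp (ℓ i u))⁻¹)
      ((-((∑ i, Real.exp (ℓ i z)) ^ 2)⁻¹) • ∑ i, Real.exp (ℓ i z) • ℓ i) z :=
    (hasDerivAt_inv (hS z).ne').comp_hasFDerivAt z (hSd z)
  refine ⟨_, ⟨fun u => (∑ i, Real.exp (ℓ i u))⁻¹ • ∑ i, Real.exp (ℓ i u) • ℓ i, ?_,
    hI.smul hV⟩, ?_⟩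
  · refine Eventually.of_forall fun u => ?_
    exact (hSd u).log (hS u).ne'
  · intro x
    set S := ∑ i, Real.exp (ℓ i z) with hSdef
    have hSp : 0 < S := hS z
    have hcs : (∑ i, Real.exp (ℓ i z) * ℓ i x) ^ 2
        ≤ S * ∑ i, Real.exp (ℓ i z) * (ℓ i x) ^ 2 := by
      refine Finset.sum_sq_le_sum_mul_sum_of_sq_eq_mul Finset.univ
        (fun i _ => (Real.exp_pos _).le) (fun i _ => ?_) (fun i _ => ?_)
      · have := Real.exp_pos (ℓ i z)
        positivity
      · ring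
    have hval : (S⁻¹ • (∑ i, (Real.exp (ℓ i z) • ℓ i).smulRight (ℓ i))
        + ((-(S ^ 2)⁻¹) • ∑ i, Real.exp (ℓ i z) • ℓ i).smulRight
            (∑ i, Real.exp (ℓ i z) • ℓ i)) x x
        = S⁻¹ * (∑ i, Real.exp (ℓ i z) * (ℓ i x) ^ 2)
          - (S ^ 2)⁻¹ * (∑ i, Real.exp (ℓ i z) * ℓ i x) ^ 2 := by
      simp only [ContinuousLinearMap.add_apply, ContinuousLinearMap.smul_apply,
        ContinuousLinearMap.smulRight_apply, ContinuousLinearMap.sum_apply, smul_eq_mul]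
      have : ∀ i, Real.exp (ℓ i z) * ℓ i x * ℓ i x = Real.exp (ℓ i z) * (ℓ i x) ^ 2 :=
        fun i => by ring
      simp only [this]
      ring
    rw [hval]
    have h1 : (S ^ 2)⁻¹ * (∑ i, Real.exp (ℓ i z) * ℓ i x) ^ 2
        ≤ (S ^ 2)⁻¹ * (S * ∑ i, Real.exp (ℓ i z) * (ℓ i x) ^ 2) :=
      mul_le_mul_of_nonneg_left hcs (by positivity)
    have h2 : (S ^ 2)⁻¹ * (S * ∑ i, Real.exp (ℓ i z) * (ℓ i x) ^ 2)
        = S⁻¹ * ∑ i, Real.exp (ℓ i z) * (ℓ i x) ^ 2 := by
      field_simp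
    linarith

/-- the coordinate functional -/
noncomputable def CV_q (j : J) : PS J →L[ℝ] ℝ :=
  (ContinuousLinearMap.proj j : (J → ℝ) →L[ℝ] ℝ).comp (ContinuousLinearMap.fst ℝ _ _)

theorem CV_q_apply (j : J) (u : PS J) : CV_q j u = u.1 j := rfl

end

theorem CV_offdiag {J : Type} [Fintype J] (z : PS J) (a b c : J) (ε : ℝ) (ha : 0 < z.1 a) :
    ∃ B : PS J →L[ℝ] PS J →L[ℝ] ℝ, CV_HH (fun z : PS J =>
      Real.log (Real.cosh (z.1 b / 2) * Real.exp (ε * z.1 a / 2) + Real.cosh (z.1 c / 2))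
        - ls (z.1 a / 2)) z B ∧ ∀ x, 0 ≤ B x x := by
  let ℓ : Fin 4 → PS J →L[ℝ] ℝ :=
    ![(1 / 2 : ℝ) • CV_q b + (ε / 2) • CV_q a, (-(1 / 2) : ℝ) • CV_q b + (ε / 2) • CV_q a,
      (1 / 2 : ℝ) • CV_q c, (-(1 / 2) : ℝ) • CV_q c]
  obtain ⟨B, hB, hB0⟩ := CV_lse ℓ z
  have hls := CV_ls (fun u : PS J => u.1 a / 2) ((1 / 2 : ℝ) • CV_q a)
    (fun u => by
      rw [ContinuousLinearMap.smul_apply, CV_q_apply, smul_eq_mul]; ring) z (by positivity)
  have hsum : ∀ u : PS J, ∑ i, Real.exp (ℓ i u)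
      = 2 * (Real.cosh (u.1 b / 2) * Real.exp (ε * u.1 a / 2) + Real.cosh (u.1 c / 2)) := by
    intro u
    simp only [ℓ, Fin.sum_univ_four, Matrix.cons_val_zero, Matrix.cons_val_one, Matrix.cons_val,
      ContinuousLinearMap.add_apply, ContinuousLinearMap.smul_apply, CV_q_apply, smul_eq_mul]
    rw [Real.cosh_eq, Real.cosh_eq]
    rw [show 1 / 2 * u.1 b + ε / 2 * u.1 a = u.1 b / 2 + ε * u.1 a / 2 by ring,
      show -(1 / 2) * u.1 b + ε / 2 * u.1 a = -(u.1 b / 2) + ε * u.1 a / 2 by ring,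
      show 1 / 2 * u.1 c = u.1 c / 2 by ring, show -(1 / 2) * u.1 c = -(u.1 c / 2) by ring,
      Real.exp_add, Real.exp_add]
    ring
  have hlog : (fun u : PS J => Real.log (∑ i, Real.exp (ℓ i u)))
      = fun u : PS J => Real.log 2 + Real.log (Real.cosh (u.1 b / 2) * Real.exp (ε * u.1 a / 2)
        + Real.cosh (u.1 c / 2)) := by
    funext u
    rw [hsum u, Real.log_mul two_ne_zero]
    have h1 := Real.cosh_pos (u.1 b / 2)
    have h2 := Real.cosh_pos (u.1 c / 2)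
    have h3 := Real.exp_pos (ε * u.1 a / 2)
    positivity
  rw [hlog] at hB
  have h := (hB.sub (CV_HH_const (Real.log 2) z)).sub hls
  refine ⟨_, by
    convert h using 1
    funext u
    ring, ?_⟩
  intro x
  simp only [ContinuousLinearMap.sub_apply, ContinuousLinearMap.smul_apply,
    ContinuousLinearMap.smulRight_apply, ContinuousLinearMap.zero_apply, smul_eq_mul, CV_q_apply,
    sub_zero]
  have h1 := hB0 x
  have h2 : 0 ≤ 1 / Real.sinh (z.1 a / 2) ^ 2 * ((1 / 2 * x.1 a) * (1 / 2 * x.1 a)) :=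
    mul_nonneg (by positivity) (mul_self_nonneg _)
  linarith

theorem CV : CV_stmt := by
  intro J _ _ A z hz x
  have hz' : ∀ j, 0 < z.1 j := hz
  cases A with
  | seam a b c =>
    have ha := hz' a
    have hb := hz' b
    have hc := hz' c
    -- the building blocks
    have k1 := CV_lc (fun u : PS J => (u.1 a + u.1 b + u.1 c) / 4)
      ((1 / 4 : ℝ) • (CV_q a + CV_q b + CV_q c))
      (fun u => by simp only [ContinuousLinearMap.smul_apply, ContinuousLinearMap.add_apply,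
        CV_q_apply, smul_eq_mul]; ring) z
    have k2 := CV_lc (fun u : PS J => (u.1 a + u.1 b - u.1 c) / 4)
      ((1 / 4 : ℝ) • (CV_q a + CV_q b - CV_q c))
      (fun u => by simp only [ContinuousLinearMap.smul_apply, ContinuousLinearMap.add_apply,
        ContinuousLinearMap.sub_apply, CV_q_apply, smul_eq_mul]; ring) z
    have k3 := CV_lc (fun u : PS J => (u.1 a - u.1 b + u.1 c) / 4)
      ((1 / 4 : ℝ) • (CV_q a - CV_q b + CV_q c))
      (fun u => by simp only [ContinuousLinearMap.smul_apply, ContinuousLinearMap.add_apply,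
        ContinuousLinearMap.sub_apply, CV_q_apply, smul_eq_mul]; ring) z
    have k4 := CV_lc (fun u : PS J => (-u.1 a + u.1 b + u.1 c) / 4)
      ((1 / 4 : ℝ) • (-CV_q a + CV_q b + CV_q c))
      (fun u => by simp only [ContinuousLinearMap.smul_apply, ContinuousLinearMap.add_apply,
        ContinuousLinearMap.neg_apply, CV_q_apply, smul_eq_mul]; ring) z
    have m1 := CV_ls (fun u : PS J => u.1 a / 2) ((1 / 2 : ℝ) • CV_q a)
      (fun u => by simp only [ContinuousLinearMap.smul_apply, CV_q_apply, smul_eq_mul]; ring) z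
      (by positivity)
    have m2 := CV_ls (fun u : PS J => u.1 b / 2) ((1 / 2 : ℝ) • CV_q b)
      (fun u => by simp only [ContinuousLinearMap.smul_apply, CV_q_apply, smul_eq_mul]; ring) z
      (by positivity)
    have hd := (((k1.add k2).sub m1).sub m2).div2.hs x x
    have ho := (((k3.add k4).sub m1).sub m2).div2.hs x x
    simp only [ContinuousLinearMap.sub_apply, ContinuousLinearMap.add_apply,
      ContinuousLinearMap.neg_apply, ContinuousLinearMap.smul_apply,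
      ContinuousLinearMap.smulRight_apply, smul_eq_mul, CV_q_apply] at hd ho
    have p1 : 0 < 1 / Real.sinh (z.1 a / 2) ^ 2 := by
      have := Real.sinh_pos_iff.mpr (show 0 < z.1 a / 2 by positivity)
      positivity
    have p2 : 0 < 1 / Real.sinh (z.1 b / 2) ^ 2 := by
      have := Real.sinh_pos_iff.mpr (show 0 < z.1 b / 2 by positivity)
      positivity
    have p3 : ∀ s : ℝ, 0 < 1 / Real.cosh s ^ 2 := fun s => by
      have := Real.cosh_pos s
      positivity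
    have q1 := mul_nonneg p1.le (mul_self_nonneg (1 / 2 * x.1 a))
    have q2 := mul_nonneg p2.le (mul_self_nonneg (1 / 2 * x.1 b))
    have q3 := mul_nonneg (p3 ((z.1 a + z.1 b + z.1 c) / 4)).le
      (mul_self_nonneg (1 / 4 * (x.1 a + x.1 b + x.1 c)))
    have q4 := mul_nonneg (p3 ((z.1 a + z.1 b - z.1 c) / 4)).le
      (mul_self_nonneg (1 / 4 * (x.1 a + x.1 b - x.1 c)))
    have q5 := mul_nonneg (p3 ((z.1 a - z.1 b + z.1 c) / 4)).le
      (mul_self_nonneg (1 / 4 * (x.1 a - x.1 b + x.1 c)))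
    have q6 := mul_nonneg (p3 ((-z.1 a + z.1 b + z.1 c) / 4)).le
      (mul_self_nonneg (1 / 4 * (-x.1 a + x.1 b + x.1 c)))
    refine ⟨?_, ?_⟩
    · intro s s'
      cases s <;> cases s'
      · show 0 ≤ hs (fun z : PS J => (lc ((z.1 a + z.1 b + z.1 c) / 4)
          + lc ((z.1 a + z.1 b - z.1 c) / 4) - ls (z.1 a / 2) - ls (z.1 b / 2)) / 2) z x x
        rw [hd]; linarith
      · show 0 ≤ hs (fun z : PS J => (lc ((z.1 a - z.1 b + z.1 c) / 4)
          + lc ((-z.1 a + z.1 b + z.1 c) / 4) - ls (z.1 a / 2) - ls (z.1 b / 2)) / 2) z x x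
        rw [ho]; linarith
      · show 0 ≤ hs (fun z : PS J => (lc ((z.1 a - z.1 b + z.1 c) / 4)
          + lc ((-z.1 a + z.1 b + z.1 c) / 4) - ls (z.1 a / 2) - ls (z.1 b / 2)) / 2) z x x
        rw [ho]; linarith
      · show 0 ≤ hs (fun z : PS J => (lc ((z.1 a + z.1 b + z.1 c) / 4)
          + lc ((z.1 a + z.1 b - z.1 c) / 4) - ls (z.1 a / 2) - ls (z.1 b / 2)) / 2) z x x
        rw [hd]; linarith
    · intro h0
      have h0' : hs (fun z : PS J => (lc ((z.1 a + z.1 b + z.1 c) / 4)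
          + lc ((z.1 a + z.1 b - z.1 c) / 4) - ls (z.1 a / 2) - ls (z.1 b / 2)) / 2) z x x
          = 0 := h0
      rw [hd] at h0'
      have e1 : 1 / Real.sinh (z.1 a / 2) ^ 2 * (1 / 2 * x.1 a * (1 / 2 * x.1 a)) = 0 := by
        linarith
      have e2 : 1 / Real.sinh (z.1 b / 2) ^ 2 * (1 / 2 * x.1 b * (1 / 2 * x.1 b)) = 0 := by
        linarith
      have e3 : 1 / Real.cosh ((z.1 a + z.1 b + z.1 c) / 4) ^ 2
          * (1 / 4 * (x.1 a + x.1 b + x.1 c) * (1 / 4 * (x.1 a + x.1 b + x.1 c))) = 0 := by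
        linarith
      have f1 : x.1 a = 0 := by
        have := mul_self_eq_zero.mp ((mul_eq_zero.mp e1).resolve_left p1.ne')
        linarith
      have f2 : x.1 b = 0 := by
        have := mul_self_eq_zero.mp ((mul_eq_zero.mp e2).resolve_left p2.ne')
        linarith
      have f3 : x.1 a + x.1 b + x.1 c = 0 := by
        have := mul_self_eq_zero.mp ((mul_eq_zero.mp e3).resolve_left (p3 _).ne')
        linarith
      exact ⟨f1, f2, by show x.1 c = 0; linarith⟩
  | wave a b c =>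
    have ha := hz' a
    have hb := hz' b
    have hc := hz' c
    have k1 := CV_lc (fun u : PS J => (u.1 a + u.1 b + u.1 c) / 4)
      ((1 / 4 : ℝ) • (CV_q a + CV_q b + CV_q c))
      (fun u => by simp only [ContinuousLinearMap.smul_apply, ContinuousLinearMap.add_apply,
        CV_q_apply, smul_eq_mul]; ring) z
    have k2 := CV_lc (fun u : PS J => (u.1 a + u.1 b - u.1 c) / 4)
      ((1 / 4 : ℝ) • (CV_q a + CV_q b - CV_q c))
      (fun u => by simp only [ContinuousLinearMap.smul_apply, ContinuousLinearMap.add_apply,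
        ContinuousLinearMap.sub_apply, CV_q_apply, smul_eq_mul]; ring) z
    have k3 := CV_lc (fun u : PS J => (u.1 a - u.1 b + u.1 c) / 4)
      ((1 / 4 : ℝ) • (CV_q a - CV_q b + CV_q c))
      (fun u => by simp only [ContinuousLinearMap.smul_apply, ContinuousLinearMap.add_apply,
        ContinuousLinearMap.sub_apply, CV_q_apply, smul_eq_mul]; ring) z
    have k4 := CV_lc (fun u : PS J => (-u.1 a + u.1 b + u.1 c) / 4)
      ((1 / 4 : ℝ) • (-CV_q a + CV_q b + CV_q c))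
      (fun u => by simp only [ContinuousLinearMap.smul_apply, ContinuousLinearMap.add_apply,
        ContinuousLinearMap.neg_apply, CV_q_apply, smul_eq_mul]; ring) z
    have m1 := CV_ls (fun u : PS J => u.1 a / 2) ((1 / 2 : ℝ) • CV_q a)
      (fun u => by simp only [ContinuousLinearMap.smul_apply, CV_q_apply, smul_eq_mul]; ring) z
      (by positivity)
    have hd := (((CV_HH_const (Real.log 2) z).add
      (((k1.add k4).add k3).add k2).div2).sub m1).hs x x
    simp only [ContinuousLinearMap.sub_apply, ContinuousLinearMap.add_apply,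
      ContinuousLinearMap.neg_apply, ContinuousLinearMap.smul_apply,
      ContinuousLinearMap.smulRight_apply, smul_eq_mul, CV_q_apply,
      ContinuousLinearMap.zero_apply] at hd
    have p1 : 0 < 1 / Real.sinh (z.1 a / 2) ^ 2 := by
      have := Real.sinh_pos_iff.mpr (show 0 < z.1 a / 2 by positivity)
      positivity
    have p3 : ∀ s : ℝ, 0 < 1 / Real.cosh s ^ 2 := fun s => by
      have := Real.cosh_pos s
      positivity
    have q1 := mul_nonneg p1.le (mul_self_nonneg (1 / 2 * x.1 a))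
    have q3 := mul_nonneg (p3 ((z.1 a + z.1 b + z.1 c) / 4)).le
      (mul_self_nonneg (1 / 4 * (x.1 a + x.1 b + x.1 c)))
    have q4 := mul_nonneg (p3 ((z.1 a + z.1 b - z.1 c) / 4)).le
      (mul_self_nonneg (1 / 4 * (x.1 a + x.1 b - x.1 c)))
    have q5 := mul_nonneg (p3 ((z.1 a - z.1 b + z.1 c) / 4)).le
      (mul_self_nonneg (1 / 4 * (x.1 a - x.1 b + x.1 c)))
    have q6 := mul_nonneg (p3 ((-z.1 a + z.1 b + z.1 c) / 4)).le
      (mul_self_nonneg (1 / 4 * (-x.1 a + x.1 b + x.1 c)))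
    refine ⟨?_, ?_⟩
    · intro s s'
      cases s <;> cases s'
      · show 0 ≤ hs (fun z : PS J => Real.log 2 + (lc ((z.1 a + z.1 b + z.1 c) / 4)
          + lc ((-z.1 a + z.1 b + z.1 c) / 4) + lc ((z.1 a - z.1 b + z.1 c) / 4)
          + lc ((z.1 a + z.1 b - z.1 c) / 4)) / 2 - ls (z.1 a / 2)) z x x
        rw [hd]; linarith
      · show 0 ≤ hs (fun z : PS J => Real.log (Real.cosh (z.1 b / 2) * Real.exp (z.1 a / 2)
          + Real.cosh (z.1 c / 2)) - ls (z.1 a / 2)) z x x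
        obtain ⟨B, hB, hB0⟩ := CV_offdiag z a b c 1 ha
        simp only [one_mul] at hB
        rw [hB.hs]
        exact hB0 x
      · show 0 ≤ hs (fun z : PS J => Real.log (Real.cosh (z.1 b / 2) * Real.exp (-(z.1 a / 2))
          + Real.cosh (z.1 c / 2)) - ls (z.1 a / 2)) z x x
        obtain ⟨B, hB, hB0⟩ := CV_offdiag z a b c (-1) ha
        have he : ∀ t : ℝ, -1 * t / 2 = -(t / 2) := fun t => by ring
        simp only [he] at hB
        rw [hB.hs]
        exact hB0 x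
      · show 0 ≤ hs (fun z : PS J => Real.log 2 + (lc ((z.1 a + z.1 b + z.1 c) / 4)
          + lc ((-z.1 a + z.1 b + z.1 c) / 4) + lc ((z.1 a - z.1 b + z.1 c) / 4)
          + lc ((z.1 a + z.1 b - z.1 c) / 4)) / 2 - ls (z.1 a / 2)) z x x
        rw [hd]; linarith
    · intro h0
      have h0' : hs (fun z : PS J => Real.log 2 + (lc ((z.1 a + z.1 b + z.1 c) / 4)
          + lc ((-z.1 a + z.1 b + z.1 c) / 4) + lc ((z.1 a - z.1 b + z.1 c) / 4)
          + lc ((z.1 a + z.1 b - z.1 c) / 4)) / 2 - ls (z.1 a / 2)) z x x = 0 := h0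
      rw [hd] at h0'
      have e1 : 1 / Real.sinh (z.1 a / 2) ^ 2 * (1 / 2 * x.1 a * (1 / 2 * x.1 a)) = 0 := by
        linarith
      have e3 : 1 / Real.cosh ((z.1 a + z.1 b + z.1 c) / 4) ^ 2
          * (1 / 4 * (x.1 a + x.1 b + x.1 c) * (1 / 4 * (x.1 a + x.1 b + x.1 c))) = 0 := by
        linarith
      have e4 : 1 / Real.cosh ((z.1 a + z.1 b - z.1 c) / 4) ^ 2
          * (1 / 4 * (x.1 a + x.1 b - x.1 c) * (1 / 4 * (x.1 a + x.1 b - x.1 c))) = 0 := by
        linarith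
      have f1 : x.1 a = 0 := by
        have := mul_self_eq_zero.mp ((mul_eq_zero.mp e1).resolve_left p1.ne')
        linarith
      have f3 : x.1 a + x.1 b + x.1 c = 0 := by
        have := mul_self_eq_zero.mp ((mul_eq_zero.mp e3).resolve_left (p3 _).ne')
        linarith
      have f4 : x.1 a + x.1 b - x.1 c = 0 := by
        have := mul_self_eq_zero.mp ((mul_eq_zero.mp e4).resolve_left (p3 _).ne')
        linarith
      exact ⟨f1, by show x.1 b = 0; linarith, by show x.1 c = 0; linarith⟩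

end Pool.Agent.helper73.AD
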